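import Pool.Agent.W8.LS.Stm

open scoped Topology ContDiff
open Complex (I)

namespace Pool.Agent.W584.LS

open Pool.Agent.W8.LS

lemma om_nondeg (a : V) (h : ∀ b : V, om a b = 0) : a = 0 := by
  obtain ⟨t, c, z, w⟩ := a
  have h1 := h (1, 0, 0, 0)
  have h2 := h (0, 1, 0, 0)
  have h3 := h (0, 0, 1, 0)
  have h4 := h (0, 0, I, 0)
  have h5 := h (0, 0, 0, 1)
  have h6 := h (0, 0, 0, I)
  simp only [om, mul_zero, mul_one, zero_sub, sub_zero, zero_add, Complex.zero_re, add_zero,
    Complex.neg_re, Complex.mul_re, Complex.I_re, Complex.I_im, sub_self] at h1 h2 h3 h4 h5 h6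
  have hz : z = 0 := by
    apply Complex.ext
    · simpa using h5
    · simpa using h6
  have hw : w = 0 := by
    apply Complex.ext
    · simpa using h3
    · simpa using h4
  have hc : c = 0 := by simpa using h1
  have ht : t = 0 := by simpa using h2
  rw [hz, hw, hc, ht]
  rfl

lemma om_zero_left (b : V) : om 0 b = 0 := by
  simp [om]

lemma exists_equiv {τ : V → V} {u : V} (h : SymAt τ u) :
    ∃ e : V ≃L[ℝ] V, (e : V →L[ℝ] V) = fderiv ℝ τ u := by
  have hinj : Function.Injective (fderiv ℝ τ u).toLinearMap := by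
    rw [injective_iff_map_eq_zero]
    intro a ha
    apply om_nondeg
    intro b
    have := h a b
    rw [← this]
    have ha' : fderiv ℝ τ u a = 0 := ha
    rw [ha', om_zero_left]
  refine ⟨(LinearEquiv.ofInjectiveEndo (fderiv ℝ τ u).toLinearMap hinj).toContinuousLinearEquiv, ?_⟩
  apply ContinuousLinearMap.ext
  intro v
  rfl

theorem LTSymm_proof : LTSymm := by
  intro f g x y hfg
  obtain ⟨τ, h1, e1⟩ := hfg
  obtain ⟨c0, s0, g0⟩ := e1.self_of_nhds
  obtain ⟨e, he⟩ := exists_equiv s0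
  have hd : HasFDerivAt τ (e : V →L[ℝ] V) x := by
    rw [he]
    exact (c0.differentiableAt (by simp)).hasFDerivAt
  let φ := c0.toOpenPartialHomeomorph τ hd (by simp)
  have hφ : ∀ z, φ z = τ z := fun z => rfl
  have hx : x ∈ φ.source := c0.mem_toOpenPartialHomeomorph_source hd (by simp)
  have hxy : φ.symm y = x := by
    rw [← h1, ← hφ, φ.left_inv hx]
  have hy : y ∈ φ.target := by
    rw [← h1, ← hφ]; exact φ.map_source hx
  refine ⟨φ.symm, hxy, ?_⟩
  have hcont : ContinuousAt φ.symm y := φ.continuousAt_symm hy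
  have e2 : ∀ᶠ z in 𝓝 y, ContDiffAt ℝ ∞ τ (φ.symm z) ∧ SymAt τ (φ.symm z) ∧
      g (τ (φ.symm z)) = f (φ.symm z) := by
    rw [← hxy] at e1
    exact hcont.eventually e1
  filter_upwards [e2, φ.open_target.mem_nhds hy] with z hz hzt
  obtain ⟨c2, s2, g2⟩ := hz
  obtain ⟨e', he'⟩ := exists_equiv s2
  have hd' : HasFDerivAt φ (e' : V →L[ℝ] V) (φ.symm z) := by
    rw [he']
    exact (c2.differentiableAt (by simp)).hasFDerivAt
  refine ⟨φ.contDiffAt_symm hzt hd' c2, ?_, ?_⟩
  · intro a b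
    have h3 : HasFDerivAt φ.symm (e'.symm : V →L[ℝ] V) z := φ.hasFDerivAt_symm hzt hd'
    rw [h3.fderiv]
    have h4 := s2 (e'.symm a) (e'.symm b)
    rw [← he'] at h4
    simpa using h4.symm
  · rw [← g2, ← hφ, φ.right_inv hzt]

end Pool.Agent.W584.LS
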