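import Pool.Agent.W8.LS.Stm

open scoped Topology ContDiff

namespace Pool.Agent.W584.LS

open Pool.Agent.W8.LS

theorem LTTrans_proof : LTTrans := by
  intro f g h x y z hfg hgh
  obtain ⟨τ₁, h1, e1⟩ := hfg
  obtain ⟨τ₂, h2, e2⟩ := hgh
  refine ⟨τ₂ ∘ τ₁, by simp [h1, h2], ?_⟩
  have hc : ContinuousAt τ₁ x := (e1.self_of_nhds).1.continuousAt
  rw [← h1] at e2
  have hev := hc.eventually e2
  filter_upwards [e1, hev] with w hw1 hw2
  obtain ⟨c1, s1, g1⟩ := hw1
  obtain ⟨c2, s2, g2⟩ := hw2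
  refine ⟨c2.comp w c1, ?_, ?_⟩
  · intro a b
    have d1 : DifferentiableAt ℝ τ₁ w := c1.differentiableAt (by simp)
    have d2 : DifferentiableAt ℝ τ₂ (τ₁ w) := c2.differentiableAt (by simp)
    rw [fderiv_comp w d2 d1]
    simp only [ContinuousLinearMap.coe_comp, Function.comp_apply]
    rw [s2, s1]
  · rw [Function.comp_apply, g2, g1]

end Pool.Agent.W584.LS
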